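import Mathlib
import Pool.Agent.H422.SK.Plane
import Pool.Agent.H422.SK.Plane

/-!
# Dynamical Mordell-Lang for curves and endomorphisms of `P^N` which preserve a fibration over `P^1`

Let `Φ` be an endomorphism of `P^N` of degree `d ≥ 2` over a number field `K` and let
`π = (A_0 : A_1) : P^N ⇢ P^1` be given by two forms of degree `m`, with `π ∘ Φ = g ∘ π` for an
endomorphism `g` of `P^1` (then `g` has degree `d`, and the forms can be scaled so that
`A_i(Φ_0, …, Φ_N) = g_i(A_0, A_1)`). Suppose that `g` has no exceptional point, so that `g` is conjugate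
neither to a polynomial nor to `z ^ (-d)`.

**Theorem.** There is a number `B` such that for every `P ∈ P^N(K)` whose image `π(P)` has an infinite
orbit under `g` and for which `m h(Φ^n(P)) - h(g^n(π(P))) > B` for some `n` (equivalently: `m` times the
canonical height of `P` is not the canonical height of `π(P)`), every closed subset `V` of `P^N` of
dimension at most one, over any extension field of `K`, for example over `ℂ`, contains `Φ^n(P)` for only
finitely many `n`. In each fibre of `π` over a point of `P^1(K)` with infinite orbit, all but finitely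
many of the points of `P^N(K)` have this property.

Idea. (1) The hypothesis gives a place `v` at which the orbit tends to the base locus of `π`, with
`log (‖Φ^n(P)‖^m / ‖(A_0, A_1)(Φ^n(P))‖) ≥ c d^n`. (2) On a curve this is only possible if `g^n(π(P))`
tends to one of finitely many points of `P^1` with the speed `exp (- c' d^n)`, where the finitely many
points are zeros of a form. (3) By Roth's theorem, applied to the preimages of these points under a high
iterate of `g` (Silverman's theorem on integral points in orbits; the multiplicities of the preimages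
are small because `g` has no exceptional points), the orbit of `π(P)` does not come so close to
these points.
-/

set_option autoImplicit false

open MvPolynomial Height

namespace Pool.Agent.Results.MP_b15c9e_ag.FibredEndomorphisms

/-- An endomorphism of `P^N` over `K` of degree `d`: `N + 1` forms of degree `d` without common zero over
the algebraic closure but `0`. -/
structure Endo (K : Type) [Field K] (N d : ℕ) where
  F : Fin (N + 1) → MvPolynomial (Fin (N + 1)) K
  homogeneous : ∀ i, (F i).IsHomogeneous d
  regular : ∀ x : Fin (N + 1) → AlgebraicClosure K, (∀ i, aeval x (F i) = 0) → x = 0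

/-- The endomorphism on homogeneous coordinates, with values in any field which contains `K`. -/
noncomputable def Endo.map {K : Type} [Field K] {N d : ℕ} (Φ : Endo K N d) {L : Type} [Field L]
    [Algebra K L] (x : Fin (N + 1) → L) : Fin (N + 1) → L :=
  fun i => aeval x (Φ.F i)

/-- The point `x` has infinitely many different images under the iterates. -/
def Endo.Wandering {K : Type} [Field K] {N d : ℕ} (Φ : Endo K N d) (x : Fin (N + 1) → K) : Prop :=
  ∀ i j : ℕ, i ≠ j → ∀ c : K, Φ.map^[i] x ≠ c • Φ.map^[j] x

/-- The endomorphism `g` of `P^1` has no exceptional point: there is no point of `P^1` over the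
algebraic closure, the zero of the linear form `u_0 x_0 + u_1 x_1`, which is totally invariant under
`g ∘ g`, that is for which the pull-back of the linear form by `g ∘ g` is a constant times its
power. -/
def Endo.NoExceptionalPoint {K : Type} [Field K] {d : ℕ} (g : Endo K 1 d) : Prop :=
  ∀ u : Fin 2 → AlgebraicClosure K, u ≠ 0 → ∀ c : AlgebraicClosure K,
    ¬ ∀ x : Fin 2 → AlgebraicClosure K,
      u 0 * g.map^[2] x 0 + u 1 * g.map^[2] x 1 = c * (u 0 * x 0 + u 1 * x 1) ^ (d ^ 2)

/-- The rational map `π = (A 0 : A 1) : P^N ⇢ P^1` given by forms of degree `m` with `π ∘ Φ = g ∘ π`. -/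
structure Fibration {K : Type} [Field K] {N d : ℕ} (Φ : Endo K N d) (g : Endo K 1 d) (m : ℕ) where
  A : Fin 2 → MvPolynomial (Fin (N + 1)) K
  homogeneous : ∀ i, (A i).IsHomogeneous m
  equivariant : ∀ i, bind₁ Φ.F (A i) = bind₁ A (g.F i)

/-- The rational map `π` on homogeneous coordinates. -/
noncomputable def Fibration.map {K : Type} [Field K] {N d m : ℕ} {Φ : Endo K N d} {g : Endo K 1 d}
    (π : Fibration Φ g m) (x : Fin (N + 1) → K) : Fin 2 → K :=
  fun i => eval x (π.A i)

/-- A closed subset of `P^N` over `L`, given by forms. -/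
structure Closed (L : Type) [Field L] (N : ℕ) where
  forms : Set (MvPolynomial (Fin (N + 1)) L)
  homogeneous : ∀ g ∈ forms, ∃ e : ℕ, g.IsHomogeneous e

/-- The point with homogeneous coordinates `x` is in `V`. -/
def Closed.Has {L : Type} [Field L] {N : ℕ} (V : Closed L N) (x : Fin (N + 1) → L) : Prop :=
  ∀ g ∈ V.forms, eval x g = 0

/-- The set `V` has dimension at most one: any two quotients `x_i / x_l`, `x_j / x_l` of coordinates
satisfy a polynomial equation on `V`. -/
def Closed.AtMostCurve {L : Type} [Field L] {N : ℕ} (V : Closed L N) : Prop :=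
  ∀ i j l, ∃ P : MvPolynomial (Fin 2) L, P ≠ 0 ∧
    ∀ x, V.Has x → x l ≠ 0 → eval ![x i / x l, x j / x l] P = 0

/-- Every closed subset of dimension at most one of `P^N`, over every extension field `L` of `K`,
contains only finitely many members of the orbit of `P` (counted with their times). -/
def Endo.FiniteReturns {K : Type} [Field K] {N d : ℕ} (Φ : Endo K N d) (P : Fin (N + 1) → K) : Prop :=
  ∀ (L : Type) [Field L] [Algebra K L] (V : Closed L N), V.AtMostCurve →
    {n : ℕ | V.Has fun i => algebraMap K L (Φ.map^[n] P i)}.Finite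

lemma map_eq {K : Type} [Field K] {N d : ℕ} (Φ : Endo K N d) (x : Fin (N + 1) → K) :
    Φ.map x = Pool.Agent.Q170.HG.pt Φ.F x := by
  funext i
  rw [Endo.map, Pool.Agent.Q170.HG.pt, aeval_eq_eval]

lemma map_eq' {K : Type} [Field K] {N d : ℕ} (Φ : Endo K N d) :
    (Φ.map : (Fin (N + 1) → K) → _) = Pool.Agent.Q170.HG.pt Φ.F := by
  funext x
  exact map_eq Φ x

/-- every proper closed subset of the plane has dimension at most one in the sense above -/
theorem plane {L : Type} [Field L] [Infinite L] (V : Closed L 2) (hV : ∃ x, ¬ V.Has x) :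
    V.AtMostCurve := by
  obtain ⟨x, hx⟩ := hV
  unfold Closed.Has at hx
  push Not at hx
  obtain ⟨G, hG, hGx⟩ := hx
  obtain ⟨e, he⟩ := V.homogeneous G hG
  have hG0 : G ≠ 0 := by
    rintro rfl
    exact hGx (map_zero _)
  intro i j l
  obtain ⟨P, hP, h⟩ := Pool.Agent.H422.SK.plane G he hG0 i j l
  exact ⟨P, hP, fun x hx hl => h x (hx G hG) hl⟩

/-- **Dynamical Mordell-Lang for curves and fibred endomorphisms of projective space.** -/
theorem result (K : Type) [Field K] [NumberField K] (N d m : ℕ) (hd : 2 ≤ d) (hm : 1 ≤ m)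
    (Φ : Endo K N d) (g : Endo K 1 d) (hg : g.NoExceptionalPoint) (π : Fibration Φ g m) :
    (∃ B : ℝ, ∀ P : Fin (N + 1) → K, P ≠ 0 → g.Wandering (π.map P) →
      (∃ n : ℕ, B < m * logHeight (Φ.map^[n] P) - logHeight (g.map^[n] (π.map P))) →
      Φ.FiniteReturns P) ∧
    (∀ t : Fin 2 → K, g.Wandering t → ∃ E : Finset (Fin (N + 1) → K),
      ∀ P : Fin (N + 1) → K, P ≠ 0 → (∃ c : K, c ≠ 0 ∧ π.map P = c • t) →
        (∀ Q ∈ E, ∀ c : K, P ≠ c • Q) → Φ.FiniteReturns P) := by
  have hF : Pool.Agent.Q170.HG.IsEndo d Φ.F := ⟨Φ.homogeneous, Φ.regular⟩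
  have hgF : Pool.Agent.Q170.HG.IsEndo d g.F := ⟨g.homogeneous, g.regular⟩
  have hE : Pool.Agent.H422.SK.NoExcept d g.F := fun u c hu h => hg u hu c h
  have hab : ∀ P, π.map P = Pool.Agent.H422.SK.ab π.A P := fun P => rfl
  have hw : ∀ t : Fin 2 → K, g.Wandering t → Pool.Agent.H422.SK.Wander g.F t := by
    intro t ht i j hij c h
    apply ht i j hij c
    rw [map_eq' g]
    exact h
  obtain ⟨B, hB⟩ := Pool.Agent.H422.SK.fibred hF hd hgF hE hm π.homogeneous π.equivariant
  have h1 : ∀ P : Fin (N + 1) → K, P ≠ 0 → g.Wandering (π.map P) →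
      (∃ n : ℕ, B < m * logHeight (Φ.map^[n] P) - logHeight (g.map^[n] (π.map P))) →
      Φ.FiniteReturns P := by
    intro P hP hwP hn L _ _ V hV
    rw [map_eq' Φ, map_eq' g, hab] at hn
    have := hB P hP (hw _ hwP) hn L {x | V.Has x} fun i j l => hV i j l
    rw [map_eq' Φ]
    exact this
  refine ⟨⟨B, h1⟩, fun t ht => ?_⟩
  obtain ⟨E, hE'⟩ := Pool.Agent.H422.SK.fibre_far hm π.A B t
  refine ⟨E, fun P hP hPt hPE => ?_⟩
  rcases hE' P hP hPt with ⟨e, he, c, hc⟩ | h
  · exact absurd hc (hPE e he c)
  · apply h1 P hP ?_ ⟨0, h⟩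
    obtain ⟨c, hc, h2⟩ := hPt
    have h3 := Pool.Agent.H422.SK.wander_smul hgF.1 (hw t ht) hc
    intro i j hij c'
    rw [map_eq' g, h2]
    exact h3 i j hij c'

end Pool.Agent.Results.MP_b15c9e_ag.FibredEndomorphisms
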