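import Mathlib
import Pool.Agent.H422.SK.Join
import Pool.Agent.H422.SK.AP

/-!
# Dynamical Mordell-Lang for subvarieties of any dimension under joins of a rational function with power maps

Let `K` be a number field with an embedding `σ : K → ℂ`; we write `|a|` for `|σ(a)|`. Let `g = [F : G]` be an
endomorphism of `P^1` over `K` of degree `d ≥ 2` without exceptional points (`g` is conjugate neither to a
polynomial nor to `z ^ (-d)`), and consider the endomorphism

`Φ = [F(x, y) : G(x, y) : z_1^d : ... : z_r^d]` of `P^(r+1)`.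

Let `(x, y) ≠ 0` and `z` be vectors over `K` such that (*) `σ(K) ⊆ ℝ`, or each product `∏ z_i^(m_i)` with
`∑ m_i = 0` and absolute value `1` is a root of unity.

**Theorem A.** There is `c₀ ∈ K^*` such that for all `c ∈ K^*`, except for those for which some power
`|c / c₀| ^ q`, `q > 0`, is one of the numbers `|∏ z_i^(m_i)|` with `∑ m_i = 0`, the point
`P = [c x : c y : z_1 : ... : z_r]` has the following properties.
(1) For every closed subset `V` of `P^(r+1)`, of any dimension and defined over any extension field of `K`,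
the return set `{n : Φ^n(P) ∈ V}` is a finite union of arithmetic progressions.
(2) If the orbit of `[x : y]` under `g` is infinite, no `z_i` is zero and no product `∏ z_i^(m_i)` with
`∑ m_i = 0` and `m ≠ 0` has absolute value `1`, then it is finite for all `V ≠ P^(r+1)`.

The exceptional `c` are contained in a coset of the group of those `γ ∈ K^*` for which `|γ|` is a root of an
element of the finitely generated group generated by the `|z_i / z_j|`.

**Theorem B.** More generally let `Φ = [F(x, y) : G(x, y) : H_1 : ... : H_r]` with arbitrary forms `H_i` of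
degree `d` in all variables and let `[x : y]` have an infinite orbit under `g`. If for the iterates
`(x(n), y(n), z(n))` of `(x, y, z)` the limits `h = lim d^(-n) log max(|x(n)|, |y(n)|)` and
`θ_i = lim d^(-n) log |z_i(n)|` exist, `z_i(n) ≠ 0` for large `n`, and the numbers `θ_1 - h, ..., θ_r - h` are
linearly independent over `ℚ`, then every `V ≠ P^(r+1)` contains only finitely many of the points `Φ^n(P)`.

## Proof

Let `v` be the place of `σ`. By Roth's theorem, applied to the preimages under high iterates of `g` (Silverman's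
theorem on integral points in orbits, `silverman`), a form `C` of degree `p` in `x, y` satisfies
`log |C(x(n), y(n))| = p h d^n + o(d^n)`. The coefficient of a monomial in the `z_i` in an equation of `V` is such
a form. So all the terms of the equation have a size `exp (θ d^n + o(d^n))`. Two terms which are not separated
by their sizes have, by the assumption on `c`, the same degree in `(x, y)`, and by (*) a quotient of the form
`ρ^(d^n)` with a root of unity `ρ` times a quotient of two forms in `(x, y)` of the same degree, so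
that they may be combined in every residue class of `n`. In the end all terms are separated, and the sum
cannot vanish for large `n` unless all combined forms vanish identically.
-/

set_option autoImplicit false

open MvPolynomial Filter Topology

namespace Pool.Agent.Results.MP_b15c9e_ag.JoinsWithPowerMaps

/-- A rational function of degree `d`, that is an endomorphism of `P^1`: two forms of degree `d` without
common zero over the algebraic closure but `0`. -/
structure RatMap (K : Type) [Field K] (d : ℕ) where
  F : Fin 2 → MvPolynomial (Fin 2) K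
  homogeneous : ∀ i, (F i).IsHomogeneous d
  regular : ∀ x : Fin 2 → AlgebraicClosure K, (∀ i, aeval x (F i) = 0) → x = 0

/-- The rational function on homogeneous coordinates, with values in any field which contains `K`. -/
noncomputable def RatMap.map {K : Type} [Field K] {d : ℕ} (g : RatMap K d) {L : Type} [Field L]
    [Algebra K L] (x : Fin 2 → L) : Fin 2 → L :=
  fun i => aeval x (g.F i)

/-- The orbit of the point `x` of `P^1` is infinite. -/
def RatMap.Wandering {K : Type} [Field K] {d : ℕ} (g : RatMap K d) (x : Fin 2 → K) : Prop :=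
  ∀ i j : ℕ, i ≠ j → ∀ c : K, g.map^[i] x ≠ c • g.map^[j] x

/-- There is no exceptional point: no point of `P^1` over the algebraic closure, the zero of the linear
form `u_0 x_0 + u_1 x_1`, is totally invariant under `g ∘ g`, that is, the pull-back of the linear form
by `g ∘ g` is not a constant times its power. -/
def RatMap.NoExceptionalPoint {K : Type} [Field K] {d : ℕ} (g : RatMap K d) : Prop :=
  ∀ u : Fin 2 → AlgebraicClosure K, u ≠ 0 → ∀ c : AlgebraicClosure K,
    ¬ ∀ x : Fin 2 → AlgebraicClosure K,
      u 0 * g.map^[2] x 0 + u 1 * g.map^[2] x 1 = c * (u 0 * x 0 + u 1 * x 1) ^ (d ^ 2)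

/-- The join of `g` with power maps: the endomorphism `[F(x, y) : G(x, y) : z_1^d : ... : z_r^d]` of `P^(r+1)`
on homogeneous coordinates `(x, y)` (index `Sum.inl`) and `z_1, ..., z_r` (index `Sum.inr`). -/
noncomputable def RatMap.join {K : Type} [Field K] {d : ℕ} (g : RatMap K d) (r : ℕ)
    (P : Fin 2 ⊕ Fin r → K) : Fin 2 ⊕ Fin r → K :=
  Sum.elim (g.map fun i => P (Sum.inl i)) fun i => P (Sum.inr i) ^ d

/-- The rational map `[F(x, y) : G(x, y) : H_1 : ... : H_r]` on homogeneous coordinates, where the `H_i` are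
forms of degree `d` in all the variables. -/
noncomputable def RatMap.extend {K : Type} [Field K] {d : ℕ} (g : RatMap K d) {r : ℕ}
    (H : Fin r → MvPolynomial (Fin 2 ⊕ Fin r) K) (P : Fin 2 ⊕ Fin r → K) : Fin 2 ⊕ Fin r → K :=
  Sum.elim (g.map fun i => P (Sum.inl i)) fun i => eval P (H i)

/-- A closed subset of `P^(r+1)` over `L`, given by forms. -/
structure Closed (L : Type) [Field L] (r : ℕ) where
  forms : Set (MvPolynomial (Fin 2 ⊕ Fin r) L)
  homogeneous : ∀ F ∈ forms, ∃ e : ℕ, F.IsHomogeneous e

/-- The point with homogeneous coordinates `P` in the subfield `K` of `L` is in `V`. -/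
def Closed.Has {K L : Type} [Field K] [Field L] [Algebra K L] {r : ℕ} (V : Closed L r)
    (P : Fin 2 ⊕ Fin r → K) : Prop :=
  ∀ F ∈ V.forms, eval (fun i => algebraMap K L (P i)) F = 0

/-- `V` is not the whole space. -/
def Closed.Proper {L : Type} [Field L] {r : ℕ} (V : Closed L r) : Prop :=
  ∃ F ∈ V.forms, F ≠ 0

/-- `R` is a finite union of arithmetic progressions `{a + b j : j ≥ 0}`, where `b = 0` is allowed. -/
def FiniteUnionOfProgressions (R : Set ℕ) : Prop :=
  ∃ T : Finset (ℕ × ℕ), R = ⋃ p ∈ T, Set.range fun j : ℕ => p.1 + p.2 * j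

lemma map_eq {K : Type} [Field K] {d : ℕ} (g : RatMap K d) :
    (g.map : (Fin 2 → K) → _) = Pool.Agent.Q170.HG.pt g.F := by
  funext x i
  rw [RatMap.map, Pool.Agent.Q170.HG.pt, aeval_eq_eval]

lemma join_iter {K : Type} [Field K] {d : ℕ} (g : RatMap K d) (r : ℕ) (x : Fin 2 → K) (z : Fin r → K)
    (n : ℕ) : (g.join r)^[n] (Sum.elim x z) = Sum.elim (g.map^[n] x) fun i => z i ^ d ^ n := by
  induction n with
  | zero =>
    funext i
    rcases i with i | i <;> simp
  | succ n ih =>
    rw [Function.iterate_succ_apply', ih, Function.iterate_succ_apply']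
    funext i
    rcases i with i | i
    · rfl
    · show (z i ^ d ^ n) ^ d = z i ^ d ^ (n + 1)
      rw [pow_succ, pow_mul]

lemma extend_iter {K : Type} [Field K] {d : ℕ} (g : RatMap K d) {r : ℕ}
    (H : Fin r → MvPolynomial (Fin 2 ⊕ Fin r) K) (P : Fin 2 ⊕ Fin r → K) (n : ℕ) :
    (fun i => (g.extend H)^[n] P (Sum.inl i)) = g.map^[n] fun i => P (Sum.inl i) := by
  induction n with
  | zero => rfl
  | succ n ih =>
    rw [Function.iterate_succ_apply', Function.iterate_succ_apply', ← ih]
    rfl

/-- **Dynamical Mordell-Lang for joins of a rational function with power maps.** -/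
theorem result (K : Type) [Field K] [NumberField K] (σ : K →+* ℂ) (d : ℕ) (hd : 2 ≤ d) (g : RatMap K d)
    (hg : g.NoExceptionalPoint) (r : ℕ) :
    -- Theorem A
    (∀ x : Fin 2 → K, x ≠ 0 → ∀ z : Fin r → K,
      ((∀ a : K, (σ a).im = 0) ∨ ∀ m : Fin r → ℤ, ∑ i, m i = 0 → ‖σ (∏ i, z i ^ m i)‖ = 1 →
        ∃ t : ℕ, 0 < t ∧ (∏ i, z i ^ m i) ^ t = 1) →
      ∃ c₀ : K, c₀ ≠ 0 ∧ ∀ c : K, c ≠ 0 →
        (∀ q : ℕ, 0 < q → ∀ m : Fin r → ℤ, ∑ i, m i = 0 →
          ‖σ (c / c₀)‖ ^ q ≠ ‖σ (∏ i, z i ^ m i)‖) →
        (∀ (L : Type) [Field L] [Algebra K L] (V : Closed L r),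
          FiniteUnionOfProgressions {n | V.Has ((g.join r)^[n] (Sum.elim (c • x) z))}) ∧
        (g.Wandering x → (∀ i, z i ≠ 0) →
          (∀ m : Fin r → ℤ, m ≠ 0 → ∑ i, m i = 0 → ‖σ (∏ i, z i ^ m i)‖ ≠ 1) →
          ∀ (L : Type) [Field L] [Algebra K L] (V : Closed L r), V.Proper →
            {n | V.Has ((g.join r)^[n] (Sum.elim (c • x) z))}.Finite)) ∧
    -- Theorem B
    (∀ H : Fin r → MvPolynomial (Fin 2 ⊕ Fin r) K, (∀ i, (H i).IsHomogeneous d) →
      ∀ P : Fin 2 ⊕ Fin r → K, g.Wandering (fun i => P (Sum.inl i)) → ∀ (h : ℝ) (θ : Fin r → ℝ),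
        Tendsto (fun n => Real.log (max ‖σ ((g.extend H)^[n] P (Sum.inl 0))‖
          ‖σ ((g.extend H)^[n] P (Sum.inl 1))‖) / (d : ℝ) ^ n) atTop (𝓝 h) →
        (∀ i, Tendsto (fun n => Real.log ‖σ ((g.extend H)^[n] P (Sum.inr i))‖ / (d : ℝ) ^ n) atTop
          (𝓝 (θ i))) →
        (∀ᶠ n in atTop, ∀ i, (g.extend H)^[n] P (Sum.inr i) ≠ 0) →
        (∀ m : Fin r → ℤ, m ≠ 0 → ∑ i, m i * (θ i - h) ≠ 0) →
        ∀ (L : Type) [Field L] [Algebra K L] (V : Closed L r), V.Proper →
          {n | V.Has ((g.extend H)^[n] P)}.Finite) := by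
  have hgF : Pool.Agent.Q170.HG.IsEndo d g.F := ⟨g.homogeneous, g.regular⟩
  have hE : Pool.Agent.H422.SK.NoExcept d g.F := fun u c hu h => hg u hu c h
  have hwan : ∀ (x : Fin 2 → K), g.Wandering x → Pool.Agent.H422.SK.Wander g.F x := by
    intro x hx i j hij c h'
    apply hx i j hij c
    rw [map_eq g]
    exact h'
  set v : Pool.Agent.W180.OP.Pl K := Sum.inl (NumberField.InfinitePlace.mk σ) with hv
  have hav : ∀ a : K, Pool.Agent.W180.OP.av v a = ‖σ a‖ := fun a => rfl
  constructor
  · intro x hx z hR
    obtain ⟨c₀, hc₀, H⟩ := Pool.Agent.H422.SK.join hgF hd hE v hx z (by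
      intro m hm h1
      rw [hav] at h1
      rcases hR with hR | hR
      · exact ⟨2, two_pos, Pool.Agent.H422.SK.real_unity σ hR h1⟩
      · exact hR m hm h1)
    refine ⟨c₀, hc₀, fun c hc hq => ?_⟩
    obtain ⟨h1, h2⟩ := H c hc hq
    constructor
    · intro L _ _ V
      apply Pool.Agent.H422.SK.EvPer.union
      have h3 := Pool.Agent.H422.SK.ext_evPer (L := L)
        (fun n => Sum.elim ((Pool.Agent.Q170.HG.pt g.F)^[n] (c • x)) (fun i => z i ^ d ^ n)) h1
        V.forms V.homogeneous
      simp only [join_iter, map_eq g]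
      exact h3
    · intro hw hz hind L _ _ V hV
      obtain ⟨F, hF, hF0⟩ := hV
      have h3 := Pool.Agent.H422.SK.ext_fin (L := L)
        (fun n => Sum.elim ((Pool.Agent.Q170.HG.pt g.F)^[n] (c • x)) (fun i => z i ^ d ^ n))
        (fun F hF0 hF => h2 (hwan x hw) hz hind F hF0 hF) F hF0 (V.homogeneous F hF)
      simp only [join_iter, map_eq g]
      exact h3.subset fun n hn => hn F hF
  · intro H hH P hP h θ hh hθ hne hind L _ _ V hV
    obtain ⟨F, hF, hF0⟩ := hV
    set x : Fin 2 → K := fun i => P (Sum.inl i) with hx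
    set u : ℕ → Fin r → K := fun n i => (g.extend H)^[n] P (Sum.inr i) with hu
    have hxn : ∀ n i, (g.extend H)^[n] P (Sum.inl i) = (Pool.Agent.Q170.HG.pt g.F)^[n] x i := by
      intro n i
      have := congrFun (extend_iter g H P n) i
      rw [map_eq g] at this
      exact this
    have hPn : ∀ n, (g.extend H)^[n] P = Sum.elim ((Pool.Agent.Q170.HG.pt g.F)^[n] x) (u n) := by
      intro n
      funext i
      rcases i with i | i
      · exact hxn n i
      · rfl
    have h3 := Pool.Agent.H422.SK.ext_fin (L := L)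
      (fun n => Sum.elim ((Pool.Agent.Q170.HG.pt g.F)^[n] x) (u n))
      (fun F hF0 hF => Pool.Agent.H422.SK.crit hgF hd hE v (hwan x hP) u θ (by
        refine hh.congr fun n => ?_
        rw [hxn, hxn]
        congr 2
        rw [← hav, ← hav]
        apply le_antisymm
        · exact max_le (Pool.Agent.W180.OP.le_nrm _ _ 0) (Pool.Agent.W180.OP.le_nrm _ _ 1)
        · apply Pool.Agent.W180.OP.nrm_le (le_max_of_le_left ((Pool.Agent.W180.OP.av v).nonneg _))
          intro i
          fin_cases i
          · exact le_max_left _ _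
          · exact le_max_right _ _) hθ hne hind F hF0 hF)
      F hF0 (V.homogeneous F hF)
    refine h3.subset fun n hn => ?_
    have h4 := hn F hF
    rw [hPn n] at h4
    exact h4

end Pool.Agent.Results.MP_b15c9e_ag.JoinsWithPowerMaps
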