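import Mathlib
import Pool.Agent.H422.SK.PN

/-!
# Dynamical Mordell-Lang for endomorphisms of `P^N` which preserve a pencil and a hyperplane

Let `K` be any field of characteristic zero, for example `ℂ`. Let `Φ` be an endomorphism of `P^N` of degree
`d ≥ 2` over `K` with a totally invariant hyperplane `{x_0 = 0}`, that is, a polynomial self-map of `A^N`
which extends to `P^N`. Let `π = [A_0 : A_1] : P^N ⇢ P^1` be given by forms of the same degree, with
`π ∘ Φ = g ∘ π` for an endomorphism `g` of `P^1` without exceptional points (`g` is conjugate neither to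
a polynomial nor to `z ^ (-d)`).

**Theorem A.** Let `P` be a point of `A^N(K)`, whose image `π(P)` has an infinite orbit under `g`.
(a) Every closed subset of dimension at most one of `P^N` contains `Φ^n(P)` for only finitely many `n`.
(b) So does every closed subset `V`, of any dimension, which has in `A^N` no point in common with one of
the members `{α_0 A_1 = α_1 A_0}` of the pencil.

There is no condition on the height of `P` (compare `FibredEndomorphisms`), on the critical points, on the
field and on the curve. The simplest examples are the maps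
`[x_0 : ... : x_N] ↦ [x_0^d : F(x_1, x_2) : G(x_1, x_2) : H_3 : ... : H_N]` with `[F : G] = g` and forms
`H_i` of degree `d` in all the variables. It is not needed that the forms have no common zero.

**Theorem B** (more generally). Let `f` be a polynomial self-map of `A^M`, of any degree, for example
one which restricts to an endomorphism of an affine variety `Y ⊆ A^M`, and `A_0, A_1` polynomials such that
the rational map `π = [A_0 : A_1]` is defined along the orbit of a point `u` and satisfies
`π ∘ f = g ∘ π` there. If the orbit of `π(u)` under `g` is infinite then the conclusions (a) and (b) hold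
for the orbit of `u`. An example are the maps `(x, y, z) ↦ (a F(x,y), a G(x,y), H(x,y,z))` of
`A^2 × A^r` with `[F : G] = g` and arbitrary polynomials `a` and `H = (H_1, ..., H_r)` in all the variables.

## Proof

Over a number field: the coordinates of the points of the orbit are `S`-integers, so their height is a
sum over the places in `S`. If infinitely many points of the orbit are on a curve, then these heights are
at least a positive multiple of the heights of the images `x_n` in `P^1`. So for one of the places in `S` one
of the coordinates is large and `x_n` is as close as `exp (- c d^n)` to one of finitely many points of `P^1`.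
This contradicts Roth's theorem, applied to the preimages of these points under a high iterate of `g`
(Silverman's theorem on integral points in orbits), because `g` has no exceptional points. For (b) a
coordinate of `P^1` with its pole at `α` is integral over the coordinates of the point by Hilbert's
Nullstellensatz. Over a field of characteristic zero: we specialize everything to a number field, so that
the image in `P^1` remains wandering and `g` remains without exceptional points.
-/

set_option autoImplicit false

open MvPolynomial

namespace Pool.Agent.Results.MP_b15c9e_ag.PolynomialPencils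

/-- A rational self-map of `P^N` over `K` given by `N + 1` forms of degree `d` which restricts to a polynomial
self-map of the affine space `A^N = {x_0 ≠ 0}`: the form `F_0` is a multiple `c x_0 ^ d`. If the forms have
no common zero but `0` over the algebraic closure, then this is an endomorphism of `P^N` for which the
hyperplane `{x_0 = 0}` is totally invariant. -/
structure PolyMap (K : Type) [Field K] (N d : ℕ) where
  F : Fin (N + 1) → MvPolynomial (Fin (N + 1)) K
  homogeneous : ∀ i, (F i).IsHomogeneous d
  hyperplane : ∃ c : K, c ≠ 0 ∧ F 0 = C c * X 0 ^ d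

/-- The map on homogeneous coordinates. -/
noncomputable def PolyMap.map {K : Type} [Field K] {N d : ℕ} (Φ : PolyMap K N d)
    (x : Fin (N + 1) → K) : Fin (N + 1) → K :=
  fun i => eval x (Φ.F i)

/-- A rational function of degree `d`, that is an endomorphism of `P^1`: two forms of degree `d` without
common zero over the algebraic closure but `0`. -/
structure RatMap (K : Type) [Field K] (d : ℕ) where
  F : Fin 2 → MvPolynomial (Fin 2) K
  homogeneous : ∀ i, (F i).IsHomogeneous d
  regular : ∀ x : Fin 2 → AlgebraicClosure K, (∀ i, aeval x (F i) = 0) → x = 0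

/-- The rational function on homogeneous coordinates, with values in any field which contains `K`. -/
noncomputable def RatMap.map {K : Type} [Field K] {d : ℕ} (g : RatMap K d) {L : Type} [Field L]
    [Algebra K L] (x : Fin 2 → L) : Fin 2 → L :=
  fun i => aeval x (g.F i)

/-- The orbit of the point `x` of `P^1` is infinite. -/
def RatMap.Wandering {K : Type} [Field K] {d : ℕ} (g : RatMap K d) (x : Fin 2 → K) : Prop :=
  ∀ i j : ℕ, i ≠ j → ∀ c : K, g.map^[i] x ≠ c • g.map^[j] x

/-- There is no exceptional point: no point of `P^1` over the algebraic closure, the zero of the linear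
form `u_0 x_0 + u_1 x_1`, is totally invariant under `g ∘ g`, that is, the pull-back of the linear form
by `g ∘ g` is not a constant times its power. -/
def RatMap.NoExceptionalPoint {K : Type} [Field K] {d : ℕ} (g : RatMap K d) : Prop :=
  ∀ u : Fin 2 → AlgebraicClosure K, u ≠ 0 → ∀ c : AlgebraicClosure K,
    ¬ ∀ x : Fin 2 → AlgebraicClosure K,
      u 0 * g.map^[2] x 0 + u 1 * g.map^[2] x 1 = c * (u 0 * x 0 + u 1 * x 1) ^ (d ^ 2)

/-- The pencil: the rational map `π = [A_0 : A_1] : P^N ⇢ P^1` given by forms of degree `m` with
`π ∘ Φ = g ∘ π`. -/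
structure Pencil {K : Type} [Field K] {N d : ℕ} (Φ : PolyMap K N d) (g : RatMap K d) (m : ℕ) where
  A : Fin 2 → MvPolynomial (Fin (N + 1)) K
  homogeneous : ∀ i, (A i).IsHomogeneous m
  equivariant : ∀ i, bind₁ Φ.F (A i) = bind₁ A (g.F i)

/-- The rational map `π` on homogeneous coordinates. -/
noncomputable def Pencil.map {K : Type} [Field K] {N d m : ℕ} {Φ : PolyMap K N d} {g : RatMap K d}
    (π : Pencil Φ g m) (x : Fin (N + 1) → K) : Fin 2 → K :=
  fun i => eval x (π.A i)

/-- A closed subset of `P^N`, given by forms. -/
structure Closed (K : Type) [Field K] (N : ℕ) where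
  forms : Set (MvPolynomial (Fin (N + 1)) K)
  homogeneous : ∀ g ∈ forms, ∃ e : ℕ, g.IsHomogeneous e

/-- The point with homogeneous coordinates `x` is in `V`. -/
def Closed.Has {K : Type} [Field K] {N : ℕ} (V : Closed K N) (x : Fin (N + 1) → K) : Prop :=
  ∀ g ∈ V.forms, eval x g = 0

/-- The set `V` has dimension at most one: any two quotients `x_i / x_l`, `x_j / x_l` of coordinates
satisfy a polynomial equation on `V`. -/
def Closed.AtMostCurve {K : Type} [Field K] {N : ℕ} (V : Closed K N) : Prop :=
  ∀ i j l, ∃ P : MvPolynomial (Fin 2) K, P ≠ 0 ∧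
    ∀ x, V.Has x → x l ≠ 0 → eval ![x i / x l, x j / x l] P = 0

/-- `V` has in the affine space no point in common with one of the members `{α_0 A_1 = α_1 A_0}` of the
pencil (over the algebraic closure). -/
def Closed.MissesMember {K : Type} [Field K] {N d m : ℕ} {Φ : PolyMap K N d} {g : RatMap K d}
    (V : Closed K N) (π : Pencil Φ g m) : Prop :=
  ∃ α : Fin 2 → AlgebraicClosure K, α ≠ 0 ∧ ∀ x : Fin (N + 1) → AlgebraicClosure K, x 0 ≠ 0 →
    (∀ F ∈ V.forms, aeval x F = 0) → α 0 * aeval x (π.A 1) ≠ α 1 * aeval x (π.A 0)

/-- The self-map of `A^M` given by arbitrary polynomials `f_1, ..., f_M`. (Every endomorphism of a closed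
subvariety of `A^M` is the restriction of such a map.) -/
noncomputable def polyMap {K : Type} [Field K] {M : ℕ} (f : Fin M → MvPolynomial (Fin M) K)
    (u : Fin M → K) : Fin M → K :=
  fun i => eval u (f i)

/-- A closed subset of `A^M`. -/
structure ClosedA (K : Type) [Field K] (M : ℕ) where
  eqs : Set (MvPolynomial (Fin M) K)

/-- The point `u` of `A^M` is in `V`. -/
def ClosedA.Has {K : Type} [Field K] {M : ℕ} (V : ClosedA K M) (u : Fin M → K) : Prop :=
  ∀ F ∈ V.eqs, eval u F = 0

/-- Any two coordinates satisfy a polynomial equation on `V`. All closed subsets of dimension at most one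
have this property. -/
def ClosedA.CurveLike {K : Type} [Field K] {M : ℕ} (V : ClosedA K M) : Prop :=
  ∀ i j, ∃ P : MvPolynomial (Fin 2) K, P ≠ 0 ∧ ∀ u : Fin M → K, V.Has u → eval ![u i, u j] P = 0

/-- `V` has no point in common with one of the members `{α_0 A_1 = α_1 A_0}` of the pencil spanned by the
polynomials `A_0` and `A_1` (over the algebraic closure). -/
def ClosedA.MissesMember {K : Type} [Field K] {M : ℕ} (V : ClosedA K M)
    (A : Fin 2 → MvPolynomial (Fin M) K) : Prop :=
  ∃ α : Fin 2 → AlgebraicClosure K, α ≠ 0 ∧ ∀ u : Fin M → AlgebraicClosure K,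
    (∀ F ∈ V.eqs, aeval u F = 0) → α 0 * aeval u (A 1) ≠ α 1 * aeval u (A 0)

/-- The point `π(u) = [A_0(u) : A_1(u)]`, in homogeneous coordinates. -/
noncomputable def proj {K : Type} [Field K] {M : ℕ} (A : Fin 2 → MvPolynomial (Fin M) K)
    (u : Fin M → K) : Fin 2 → K :=
  fun a => eval u (A a)

/-- Along the orbit of `u` the rational map `π = [A_0 : A_1]` is defined and satisfies
`π ∘ f = g ∘ π`. -/
def Semiconjugate {K : Type} [Field K] {d M : ℕ} (g : RatMap K d) (f : Fin M → MvPolynomial (Fin M) K)
    (A : Fin 2 → MvPolynomial (Fin M) K) (u : Fin M → K) : Prop :=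
  ∀ n : ℕ, proj A ((polyMap f)^[n] u) ≠ 0 ∧
    proj A ((polyMap f)^[n + 1] u) 0 * g.map (proj A ((polyMap f)^[n] u)) 1 =
      proj A ((polyMap f)^[n + 1] u) 1 * g.map (proj A ((polyMap f)^[n] u)) 0

lemma map_eq {K : Type} [Field K] {d : ℕ} (g : RatMap K d) :
    (g.map : (Fin 2 → K) → _) = Pool.Agent.Q170.HG.pt g.F := by
  funext x i
  rw [RatMap.map, Pool.Agent.Q170.HG.pt, aeval_eq_eval]

/-- **Dynamical Mordell-Lang for polynomial maps which preserve a pencil.** -/
theorem result (K : Type) [Field K] [CharZero K] (d : ℕ) (hd : 2 ≤ d) (g : RatMap K d)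
    (hg : g.NoExceptionalPoint) :
    -- Theorem A: endomorphisms of projective space
    (∀ (N m : ℕ) (Φ : PolyMap K N d) (π : Pencil Φ g m) (P : Fin (N + 1) → K), P 0 ≠ 0 →
      g.Wandering (π.map P) → ∀ V : Closed K N,
        (V.AtMostCurve → {n | V.Has (Φ.map^[n] P)}.Finite) ∧
        (V.MissesMember π → {n | V.Has (Φ.map^[n] P)}.Finite)) ∧
    -- Theorem B: polynomial self-maps of affine space
    (∀ (M : ℕ) (f : Fin M → MvPolynomial (Fin M) K) (A : Fin 2 → MvPolynomial (Fin M) K)
      (u : Fin M → K), Semiconjugate g f A u → g.Wandering (proj A u) → ∀ V : ClosedA K M,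
        (V.CurveLike → {n | V.Has ((polyMap f)^[n] u)}.Finite) ∧
        (V.MissesMember A → {n | V.Has ((polyMap f)^[n] u)}.Finite)) := by
  have hgF : Pool.Agent.Q170.HG.IsEndo d g.F := ⟨g.homogeneous, g.regular⟩
  have hE : Pool.Agent.H422.SK.NoExcept d g.F := fun u c hu h => hg u hu c h
  have hwan : ∀ (x : Fin 2 → K), g.Wandering x → Pool.Agent.H422.SK.Wander g.F x := by
    intro x hx i j hij c h'
    apply hx i j hij c
    rw [map_eq g]
    exact h'
  constructor
  · intro N m Φ π P hP hw V
    obtain ⟨c, hc, hF0⟩ := Φ.hyperplane
    have h1 := Pool.Agent.H422.SK.pn Φ.homogeneous hd hgF hE π.homogeneous π.equivariant hc hF0 hP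
      (hwan _ hw) V.forms V.homogeneous
    refine ⟨fun hV => h1.1 hV, ?_⟩
    rintro ⟨α, hα, hm⟩
    exact h1.2 α hα hm
  · intro M f A u hs hx V
    have hA0 : ∀ n, (fun a => eval ((Pool.Agent.H422.SK.pm f)^[n] u) (A a)) ≠ 0 := fun n => (hs n).1
    have hA : ∀ n, eval ((Pool.Agent.H422.SK.pm f)^[n + 1] u) (A 0) *
        Pool.Agent.Q170.HG.pt g.F (fun a => eval ((Pool.Agent.H422.SK.pm f)^[n] u) (A a)) 1 =
        eval ((Pool.Agent.H422.SK.pm f)^[n + 1] u) (A 1) *
        Pool.Agent.Q170.HG.pt g.F (fun a => eval ((Pool.Agent.H422.SK.pm f)^[n] u) (A a)) 0 := by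
      intro n
      have h1 := (hs n).2
      rw [map_eq g] at h1
      exact h1
    constructor
    · intro hV
      exact Pool.Agent.H422.SK.semi hgF hd hE f A u (hwan _ hx) hA0 hA {w | V.Has w} hV
    · rintro ⟨α, hα, hm⟩
      exact Pool.Agent.H422.SK.semi_miss hgF hd hE f A u (hwan _ hx) hA0 hA V.eqs α hα hm

end Pool.Agent.Results.MP_b15c9e_ag.PolynomialPencils
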