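import Pool.Agent.H864.PNe

/-!
# Every endomorphism of projective space: Dynamical Mordell-Lang at a positive proportion of the
# rational points

Let `Φ = [F_0 : ... : F_N]` be ANY endomorphism of `ℙ^N` over `ℂ` of degree `d ≥ 2`.

1. For every finitely generated subring `A` of `ℂ` (for example the ring of integers of a number
   field) there are infinitely many primes `p`, with surjective homomorphisms `π : A → ZMod p` and
   classes `c ≠ 0` in `(ZMod p)^(N+1)`, such that the orbit of `[v]` satisfies the Dynamical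
   Mordell-Lang conjecture, for ALL closed `V` over `ℂ`, for all `v` in `A^(N+1)` in the residue
   class `π(v) = c`.
2. In particular (`A = ℤ`, `N ≥ 1`) this holds for a positive proportion of the rational points,
   ordered by their height: for at least `δ (2 B + 1)^(N+1)` of the vectors of coprime integers of
   absolute value at most `B`.

Proof. The crucial point is the existence of an étale periodic point `ξ`, i.e. of a periodic point
whose cycle does not meet the critical locus, and this over `ℂ` and not only modulo `p`. By the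
method of Borisov and Sapir the reduction of `F` at a place of residue characteristic `p` has
quasi-fixed points `F(a) = a^(p^e)` outside of the critical locus (`Pool.Agent.H864.BSd`). They are
periodic with cycles outside of the critical locus. For `s ≥ 1` the polynomial ring over the
valuation ring `O` of the place is a finite module over the subring generated by the
`F^s_i - X_i`, since the `F_i` are forms of degree `d ≥ 2` without a common zero. This subring is an
integrally closed domain, so by the going-down theorem every zero of the `F^s_i - X_i` over the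
residue field lifts to a zero `ξ` over `O`, a fixed point of `F^s` over `ℂ`
(`Pool.Agent.H864.PN.lift_zero`). Finally there are infinitely many primes `p` with embeddings of
`ℂ` in the algebraic closure of `ℚ_p` for which `A` and the coordinates of `ξ` are integral with
residues in the prime field (Cassels; `Pool.Agent.H864.Cas.exists_split_embedding`). If `v` has the
residue of `ξ` then its orbit is étale at this place and `p`-adic interpolation applies.
-/

set_option autoImplicit false

namespace Pool.Agent.Results.MP_b15c9e_ag.PositiveProportionOfPoints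

open MvPolynomial

/-- The self-map of `ℂ^(N+1)` given by the forms. -/
noncomputable def selfMap {N : ℕ} (F : Fin (N + 1) → MvPolynomial (Fin (N + 1)) ℂ)
    (z : Fin (N + 1) → ℂ) : Fin (N + 1) → ℂ :=
  fun i => eval z (F i)

/-- The orbit of `[α]` satisfies the Dynamical Mordell-Lang conjecture: for every set `S` of
polynomials, in particular for the sets of forms which define the closed subsets of `ℙ^N`, the set of
the `n` such that all members of `S` vanish at the `n`-th iterate is a finite union of arithmetic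
progressions. -/
def DMLAt {N : ℕ} (F : Fin (N + 1) → MvPolynomial (Fin (N + 1)) ℂ) (α : Fin (N + 1) → ℂ) : Prop :=
  ∀ S : Set (MvPolynomial (Fin (N + 1)) ℂ), ∃ T : Finset (ℕ × ℕ),
    {n : ℕ | ∀ g ∈ S, eval ((selfMap F)^[n] α) g = 0} = {n : ℕ | ∃ q ∈ T, ∃ m : ℕ, n = q.1 + q.2 * m}

/-- **Dynamical Mordell-Lang at a positive proportion of the rational points, for every endomorphism
of projective space.** -/
theorem result (N d : ℕ) (hd : 2 ≤ d) (F : Fin (N + 1) → MvPolynomial (Fin (N + 1)) ℂ)
    (hF : ∀ i, (F i).IsHomogeneous d)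
    (h0 : ∀ z : Fin (N + 1) → ℂ, (∀ i, eval z (F i) = 0) → z = 0) :
    (∀ A : Subring ℂ, (∃ s : Finset ℂ, A = Subring.closure (s : Set ℂ)) → ∀ B : ℕ,
      ∃ p : ℕ, B < p ∧ p.Prime ∧ ∃ (π : A →+* ZMod p) (c : Fin (N + 1) → ZMod p), c ≠ 0 ∧
        ∀ v : Fin (N + 1) → A, (∀ i, π (v i) = c i) → DMLAt F (fun i => (v i : ℂ))) ∧
    (1 ≤ N → ∃ (δ : ℝ) (B₀ : ℕ), 0 < δ ∧ ∀ B : ℕ, B₀ ≤ B →
      δ * (2 * B + 1) ^ (N + 1) ≤
        ({v : Fin (N + 1) → ℤ | (∀ i, |v i| ≤ B) ∧ Finset.univ.gcd v = 1 ∧
          DMLAt F (fun i => (v i : ℂ))}.ncard : ℝ)) := by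
  classical
  have h1 : ∀ A : Subring ℂ, (∃ s : Finset ℂ, A = Subring.closure (s : Set ℂ)) → ∀ B : ℕ,
      ∃ p : ℕ, B < p ∧ p.Prime ∧ ∃ (π : A →+* ZMod p) (c : Fin (N + 1) → ZMod p), c ≠ 0 ∧
        ∀ v : Fin (N + 1) → A, (∀ i, π (v i) = c i) → DMLAt F (fun i => (v i : ℂ)) := by
    intro A hA B
    obtain ⟨p, hpB, hp, π, c, hc, h⟩ := Pool.Agent.H864.PN.exists_residue_class F d hd hF h0 A hA B
    refine ⟨p, hpB, hp, π, c, hc, fun v hv S => ?_⟩
    obtain ⟨L, -, hL⟩ := h v hv
    obtain ⟨T, -, hT⟩ := hL S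
    exact ⟨T, hT⟩
  refine ⟨h1, fun hN => ?_⟩
  obtain ⟨p, hp6, hp, π, c, hc, h⟩ := h1 (Subring.closure ((∅ : Finset ℂ) : Set ℂ)) ⟨∅, rfl⟩ 6
  have hpf : Fact p.Prime := ⟨hp⟩
  let A := Subring.closure ((∅ : Finset ℂ) : Set ℂ)
  have hcl : ∀ v : Fin (N + 1) → ℤ, (∀ i, ((v i : ℤ) : ZMod p) = c i) →
      DMLAt F (fun i => (v i : ℂ)) := by
    intro v hv
    have h2 := h (fun i => ((v i : ℤ) : A)) (fun i => by rw [map_intCast]; exact hv i)
    have h3 : (fun i => (((v i : ℤ) : A) : ℂ)) = fun i => (v i : ℂ) := by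
      funext i
      exact map_intCast A.subtype (v i)
    rw [h3] at h2
    exact h2
  -- the coordinates
  obtain ⟨i, hi⟩ : ∃ i, c i ≠ 0 := by
    by_contra hcon
    push Not at hcon
    exact hc (funext hcon)
  obtain ⟨j, hij⟩ : ∃ j, i ≠ j := by
    by_cases h2 : i = 0
    · exact ⟨⟨1, by omega⟩, by rw [h2]; intro h3; exact absurd (congrArg Fin.val h3) (by simp)⟩
    · exact ⟨0, h2⟩
  have hcop : Nat.Coprime p 6 := by
    rw [Nat.Prime.coprime_iff_not_dvd hp]
    intro hdvd
    exact absurd (Nat.le_of_dvd (by norm_num) hdvd) (by omega)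
  obtain ⟨a, ha1, ha2⟩ := Nat.chineseRemainder hcop (c i).val 1
  let r : Fin (N + 1) → ℤ := fun l => if l = i then (a : ℤ) else ((c l).val : ℤ)
  have hrc : ∀ l, ((r l : ℤ) : ZMod p) = c l := by
    intro l
    show (((if l = i then (a : ℤ) else ((c l).val : ℤ)) : ℤ) : ZMod p) = c l
    split_ifs with hl
    · rw [Int.cast_natCast, (ZMod.natCast_eq_natCast_iff a (c i).val p).2 ha1, ZMod.natCast_zmod_val,
        hl]
    · rw [Int.cast_natCast, ZMod.natCast_zmod_val]
  have hri : r i = a := if_pos rfl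
  have hcopr : IsCoprime (r i) ((p * 6 : ℕ) : ℤ) := by
    rw [hri, Nat.isCoprime_iff_coprime, Nat.coprime_mul_iff_right]
    constructor
    · apply Nat.Coprime.symm
      rw [Nat.Prime.coprime_iff_not_dvd hp, ← ZMod.natCast_eq_zero_iff]
      have h2 := hrc i
      rw [hri, Int.cast_natCast] at h2
      rw [h2]
      exact hi
    · have h2 : a % 6 = 1 := ha2
      rw [Nat.coprime_iff_gcd_eq_one, Nat.gcd_comm, Nat.gcd_rec, h2]
      norm_num
  have hM0 : 0 < p * 6 := Nat.mul_pos hp.pos (by norm_num)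
  refine ⟨(1 / (2 * ((p * 6 : ℕ) : ℝ))) ^ (N + 1), 4 * (p * 6 + 2) * (p * 6), by positivity,
    fun B hB => ?_⟩
  have hcount := Pool.Agent.H864.Count.count i j hij (p * 6) hM0 (Dvd.intro_left p rfl) r hcopr B
    (by omega)
  have hfin : {v : Fin (N + 1) → ℤ | (∀ i, |v i| ≤ B) ∧ Finset.univ.gcd v = 1 ∧
      DMLAt F (fun i => (v i : ℂ))}.Finite := by
    apply Set.Finite.subset (Fintype.piFinset fun _ : Fin (N + 1) => Finset.Icc (-(B : ℤ)) B).finite_toSet
    intro v hv
    rw [Finset.mem_coe, Fintype.mem_piFinset]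
    intro l
    rw [Finset.mem_Icc]
    exact abs_le.1 (hv.1 l)
  have hsub : (((Fintype.piFinset fun l => Pool.Agent.H864.Count.cls B ((p * 6 : ℕ) : ℤ) (r l)).filter
      fun v => IsCoprime (v i) (v j) : Finset (Fin (N + 1) → ℤ)) : Set (Fin (N + 1) → ℤ)) ⊆
      {v : Fin (N + 1) → ℤ | (∀ i, |v i| ≤ B) ∧ Finset.univ.gcd v = 1 ∧
        DMLAt F (fun i => (v i : ℂ))} := by
    intro v hv
    rw [Finset.mem_coe, Finset.mem_filter, Fintype.mem_piFinset] at hv
    obtain ⟨hv1, hv2⟩ := hv
    have hv3 := fun l => Pool.Agent.H864.Count.mem_cls.1 (hv1 l)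
    refine ⟨fun l => (hv3 l).1, ?_, ?_⟩
    · have h2 : Finset.univ.gcd v ∣ 1 := by
        obtain ⟨x, y, hxy⟩ := hv2
        rw [← hxy]
        exact dvd_add (Dvd.dvd.mul_left (Finset.gcd_dvd (Finset.mem_univ i)) x)
          (Dvd.dvd.mul_left (Finset.gcd_dvd (Finset.mem_univ j)) y)
      have h3 : normalize (Finset.univ.gcd v) = Finset.univ.gcd v := Finset.normalize_gcd
      rw [← h3]
      exact normalize_eq_one.2 (isUnit_of_dvd_one h2)
    · apply hcl
      intro l
      rw [← hrc l, ZMod.intCast_eq_intCast_iff]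
      have h2 := (hv3 l).2
      exact Int.ModEq.of_dvd (by push_cast; exact Dvd.intro _ rfl) h2
  have hle : (((Fintype.piFinset fun l => Pool.Agent.H864.Count.cls B ((p * 6 : ℕ) : ℤ) (r l)).filter
      fun v => IsCoprime (v i) (v j)).card : ℝ) ≤ ({v : Fin (N + 1) → ℤ | (∀ i, |v i| ≤ B) ∧
        Finset.univ.gcd v = 1 ∧ DMLAt F (fun i => (v i : ℂ))}.ncard : ℝ) := by
    rw [← Set.ncard_coe_finset]
    exact_mod_cast Set.ncard_le_ncard hsub hfin
  refine le_trans (le_of_eq ?_) (hcount.trans hle)
  rw [← mul_pow]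
  congr 1
  rw [one_div, mul_comm, ← div_eq_mul_inv]

end Pool.Agent.Results.MP_b15c9e_ag.PositiveProportionOfPoints
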